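import Pool.Agent.U619.ZV.Mom

/-! # The free evolution leaves every cone around the origin of small opening -/

set_option autoImplicit false
set_option linter.unusedSectionVars false

open MeasureTheory Filter Topology
open scoped BigOperators ENNReal NNReal InnerProductSpace ComplexConjugate

namespace Pool.Agent.U619.AO

open Pool.Agent.H5R2.NB Pool.Agent.H5R2.NB.MOM Pool.Agent.R988.NQ Pool.Agent.U619.NB

variable {d : ℕ} {c : ℝ}

theorem cont_coord (x : Site d) : Continuous (fun f : L2 (Site d) => (f : Site d → ℂ) x) :=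
  (continuous_apply x).comp (lp.uniformContinuous_coe).continuous

/-- the position at time `t` -/
theorem pos_eq {V : Site d → ℝ} {W : UG (L2 (Site d))} (hW : IsGrp c V W) {j : Fin d}
    {v : L2 (Site d) →L[ℂ] L2 (Site d)} (hv : IsVel c j v) (ψ X : L2 (Site d))
    (hX : ∀ x, X x = (x j : ℂ) * ψ x) (t : ℝ) (x : Site d) :
    (x j : ℂ) * (W.U t ψ) x =
      (W.U t (X + ∫ s in (0 : ℝ)..t, W.U (-s) (v (W.U s ψ)))) x := by
  obtain ⟨Sp, hp⟩ := (t_OPS d).1 (Pi.single j 1)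
  obtain ⟨Sm, hm⟩ := (t_OPS d).1 (-Pi.single j 1)
  have hcw : Continuous fun s => W.U s ψ := W.cont' _
  have key : ∀ R : ℕ, mulop (xi j R) R (xi_abs j R) (W.U t ψ) =
      W.U t (mulop (xi j R) R (xi_abs j R) ψ +
        ∫ s in (0 : ℝ)..t, W.U (-s) (vR c j R Sp Sm (W.U s ψ))) := by
    intro R
    have hch : Continuous fun s => vR c j R Sp Sm (W.U s ψ) :=
      (vR c j R Sp Sm).continuous.comp hcw
    have hU := ALL.a_UN d c V W hW _ _ hch (isSol2 c V W hW j R Sp Sm hp hm ψ) t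
    have e1 : ∫ s in (0 : ℝ)..t, W.U (t - s) (vR c j R Sp Sm (W.U s ψ)) =
        W.U t (∫ s in (0 : ℝ)..t, W.U (-s) (vR c j R Sp Sm (W.U s ψ))) := by
      rw [← ContinuousLinearMap.intervalIntegral_comp_comm _
        ((cont_comp W _ hch).intervalIntegrable 0 t)]
      refine intervalIntegral.integral_congr fun s _ => ?_
      show W.U (t - s) _ = W.U t (W.U (-s) _)
      rw [← W.add', sub_eq_add_neg]
    rw [hU, e1, W.zero', map_add]
  have h1 : Tendsto (fun R : ℕ => ∫ s in (0 : ℝ)..t,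
      W.U (-s) (vR c j R Sp Sm (W.U s ψ))) atTop
      (𝓝 (∫ s in (0 : ℝ)..t, W.U (-s) (v (W.U s ψ)))) := by
    refine intervalIntegral.tendsto_integral_filter_of_dominated_convergence
      (bound := fun _ => |c| * (‖Sp‖ + ‖Sm‖) * ‖ψ‖) ?_ ?_ ?_ ?_
    · refine Eventually.of_forall fun R => ?_
      exact (cont_comp W _ ((vR c j R Sp Sm).continuous.comp hcw)).aestronglyMeasurable
    · refine Eventually.of_forall fun R => ae_of_all _ fun s _ => ?_
      rw [W.norm']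
      have := vR_norm_le c j R Sp Sm (W.U s ψ)
      rwa [W.norm'] at this
    · exact intervalIntegrable_const
    · refine ae_of_all _ fun s _ => ?_
      exact ((W.U (-s)).continuous.tendsto _).comp (vR_tendsto c j Sp Sm v hp hm hv _)
  have h2 : Tendsto (fun R : ℕ => mulop (xi j R) R (xi_abs j R) ψ) atTop (𝓝 X) := by
    refine tendsto_dom _ X X ?_ ?_
    · intro R y
      rw [mulop_apply, hX, norm_mul, norm_mul, Complex.norm_real, Real.norm_eq_abs]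
      refine mul_le_mul_of_nonneg_right ?_ (norm_nonneg _)
      have h3 : ‖((y j : ℤ) : ℂ)‖ = |((y j : ℤ) : ℝ)| := by
        rw [← Complex.ofReal_intCast, Complex.norm_real, Real.norm_eq_abs]
      rw [h3]
      exact xi_le j R y
    · intro y
      rw [hX]
      refine tendsto_const_nhds.congr' ?_
      filter_upwards [xi_eventually j y] with R hR
      rw [mulop_apply, hR]
      push_cast
      rfl
  have h4 : Tendsto (fun R : ℕ => (mulop (xi j R) R (xi_abs j R) (W.U t ψ)) x) atTop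
      (𝓝 ((W.U t (X + ∫ s in (0 : ℝ)..t, W.U (-s) (v (W.U s ψ)))) x)) := by
    simp only [key]
    exact ((cont_coord x).tendsto _).comp (((W.U t).continuous.tendsto _).comp (h2.add h1))
  have h5 : Tendsto (fun R : ℕ => (mulop (xi j R) R (xi_abs j R) (W.U t ψ)) x) atTop
      (𝓝 ((x j : ℂ) * (W.U t ψ) x)) := by
    refine tendsto_const_nhds.congr' ?_
    filter_upwards [xi_eventually j x] with R hR
    rw [mulop_apply, hR]
    push_cast
    rfl
  exact tendsto_nhds_unique h5 h4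

/-- in a constant potential the velocity is conserved -/
theorem vel_comm {ev : (Site d → ℝ) → UG (L2 (Site d))} (hev : ∀ V, IsGrp c V (ev V)) (b : ℝ)
    {j : Fin d} {v : L2 (Site d) →L[ℂ] L2 (Site d)} (hv : IsVel c j v) (s : ℝ)
    (ψ : L2 (Site d)) :
    v ((ev fun _ => b).U s ψ) = (ev fun _ => b).U s (v ψ) := by
  obtain ⟨Sp, hp⟩ := (t_OPS d).1 (Pi.single j 1)
  obtain ⟨Sm, hm⟩ := (t_OPS d).1 (-Pi.single j 1)
  have e : ∀ φ, v φ = (Complex.I * c) • (Sp φ - Sm φ) := by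
    intro φ
    ext x
    show (v φ) x = (Complex.I * c) * ((Sp φ) x - (Sm φ) x)
    rw [hv φ x, hp φ x, hm φ x, sub_eq_add_neg x]
  have h1 := ALL.a_COV d c ev hev (Pi.single j 1) Sp hp (fun _ => b) s ψ
  have h2 := ALL.a_COV d c ev hev (-Pi.single j 1) Sm hm (fun _ => b) s ψ
  rw [e, e, map_smul, map_sub]
  have h1' : (ev fun _ => b).U s (Sp ψ) = Sp ((ev fun _ => b).U s ψ) := h1
  have h2' : (ev fun _ => b).U s (Sm ψ) = Sm ((ev fun _ => b).U s ψ) := h2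
  rw [h1', h2']

/-- the mass in the ball of radius `R` -/
noncomputable def inn (R : ℝ) (u : L2 (Site d)) : ℝ≥0∞ :=
  ∑' x : Site d, if ∑ i : Fin d, (x i : ℝ) ^ 2 ≤ R ^ 2 then ‖u x‖ₑ ^ 2 else 0

theorem esq (z : ℂ) : ‖z‖ₑ ^ 2 = ENNReal.ofReal (‖z‖ ^ 2) := by
  rw [ENNReal.ofReal_pow (norm_nonneg _), ofReal_norm]

theorem pt_bound (y : ℝ) (ε t : ℝ) (ht : 0 < t) (hy : y ^ 2 ≤ (ε * t) ^ 2) (a b z : ℂ)
    (hz : (t : ℂ) * z = y * a - b) :
    ‖z‖ ^ 2 ≤ 2 * ε ^ 2 * ‖a‖ ^ 2 + 2 * (t ^ 2)⁻¹ * ‖b‖ ^ 2 := by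
  have h1 : t * ‖z‖ ≤ |y| * ‖a‖ + ‖b‖ := by
    have h2 : ‖(t : ℂ) * z‖ = t * ‖z‖ := by
      rw [norm_mul, Complex.norm_real, Real.norm_eq_abs, abs_of_pos ht]
    rw [← h2, hz]
    refine (norm_sub_le _ _).trans ?_
    rw [norm_mul, Complex.norm_real, Real.norm_eq_abs]
  have h3 : (t * ‖z‖) ^ 2 ≤ (|y| * ‖a‖ + ‖b‖) ^ 2 :=
    pow_le_pow_left₀ (by positivity) h1 2
  have h4 : (|y| * ‖a‖ + ‖b‖) ^ 2 ≤ 2 * (y ^ 2 * ‖a‖ ^ 2) + 2 * ‖b‖ ^ 2 := by
    have h5 := sq_nonneg (|y| * ‖a‖ - ‖b‖)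
    have h6 : |y| ^ 2 = y ^ 2 := sq_abs y
    nlinarith
  have h7 : y ^ 2 * ‖a‖ ^ 2 ≤ (ε * t) ^ 2 * ‖a‖ ^ 2 :=
    mul_le_mul_of_nonneg_right hy (by positivity)
  have h8 : t ^ 2 * ‖z‖ ^ 2 ≤ t ^ 2 * (2 * ε ^ 2 * ‖a‖ ^ 2 + 2 * (t ^ 2)⁻¹ * ‖b‖ ^ 2) := by
    have h9 : t ^ 2 * (2 * ε ^ 2 * ‖a‖ ^ 2 + 2 * (t ^ 2)⁻¹ * ‖b‖ ^ 2) =
        2 * ((ε * t) ^ 2 * ‖a‖ ^ 2) + 2 * ‖b‖ ^ 2 := by
      field_simp
    rw [h9]
    calc t ^ 2 * ‖z‖ ^ 2 = (t * ‖z‖) ^ 2 := by ring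
      _ ≤ _ := h3.trans (h4.trans (by linarith))
  exact le_of_mul_le_mul_left h8 (by positivity)

/-- a state in the range of the velocity has little mass in a narrow cone -/
theorem inn_vel {ev : (Site d → ℝ) → UG (L2 (Site d))} (hev : ∀ V, IsGrp c V (ev V)) (b : ℝ)
    {j : Fin d} {v : L2 (Site d) →L[ℂ] L2 (Site d)} (hv : IsVel c j v) (ψ X : L2 (Site d))
    (hX : ∀ x, X x = (x j : ℂ) * ψ x) (ε t : ℝ) (ht : 0 < t) :
    inn (ε * t) ((ev fun _ => b).U t (v ψ)) ≤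
      ENNReal.ofReal (2 * ε ^ 2) * ‖ψ‖ₑ ^ 2 + ENNReal.ofReal (2 * (t ^ 2)⁻¹) * ‖X‖ₑ ^ 2 := by
  set W := ev fun _ => b with hWdef
  have hW : IsGrp c (fun _ => b) W := hev _
  have hint : ∫ s in (0 : ℝ)..t, W.U (-s) (v (W.U s ψ)) = (t : ℂ) • v ψ := by
    have h1 : ∀ s : ℝ, W.U (-s) (v (W.U s ψ)) = v ψ := by
      intro s
      rw [hWdef, vel_comm hev b hv, ← (ev fun _ => b).add', neg_add_cancel,
        (ev fun _ => b).zero']
    simp only [h1]
    rw [intervalIntegral.integral_const, sub_zero]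
    rfl
  have hpos : ∀ x, (t : ℂ) * (W.U t (v ψ)) x = ((x j : ℝ) : ℂ) * (W.U t ψ) x - (W.U t X) x := by
    intro x
    have h2 := pos_eq hW hv ψ X hX t x
    rw [hint, map_add, map_smul] at h2
    have h3 : (W.U t X + (t : ℂ) • W.U t (v ψ)) x = (W.U t X) x + (t : ℂ) * (W.U t (v ψ)) x := rfl
    rw [h3] at h2
    have h4 : ((x j : ℝ) : ℂ) = ((x j : ℤ) : ℂ) := by push_cast; rfl
    rw [h4, h2]
    ring
  have hψ : ‖W.U t ψ‖ₑ ^ 2 = ‖ψ‖ₑ ^ 2 := by
    rw [← ofReal_norm, W.norm', ofReal_norm]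
  have hXn : ‖W.U t X‖ₑ ^ 2 = ‖X‖ₑ ^ 2 := by
    rw [← ofReal_norm, W.norm', ofReal_norm]
  rw [← hψ, ← hXn, ← enorm_sq (W.U t ψ), ← enorm_sq (W.U t X), ← ENNReal.tsum_mul_left,
    ← ENNReal.tsum_mul_left, ← ENNReal.tsum_add]
  unfold inn
  refine ENNReal.tsum_le_tsum fun x => ?_
  split_ifs with h
  · have hy : ((x j : ℤ) : ℝ) ^ 2 ≤ (ε * t) ^ 2 :=
      (Finset.single_le_sum (f := fun i : Fin d => ((x i : ℤ) : ℝ) ^ 2)
        (fun i _ => sq_nonneg _) (Finset.mem_univ j)).trans h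
    have h5 := pt_bound _ ε t ht hy _ _ _ (hpos x)
    rw [esq, esq, esq, ← ENNReal.ofReal_mul (by positivity), ← ENNReal.ofReal_mul (by positivity),
      ← ENNReal.ofReal_add (by positivity) (by positivity)]
    exact ENNReal.ofReal_le_ofReal h5
  · exact bot_le

theorem esq_le (z w : ℂ) : ‖z + w‖ₑ ^ 2 ≤ 2 * ‖z‖ₑ ^ 2 + 2 * ‖w‖ₑ ^ 2 :=
  (pow_le_pow_left' (enorm_add_le z w) 2).trans (sq_add_le _ _)

theorem inn_add (R : ℝ) (u w : L2 (Site d)) : inn R u ≤ 2 * inn R w + 2 * ‖u - w‖ₑ ^ 2 := by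
  rw [← enorm_sq (u - w)]
  unfold inn
  rw [← ENNReal.tsum_mul_left, ← ENNReal.tsum_mul_left, ← ENNReal.tsum_add]
  refine ENNReal.tsum_le_tsum fun x => ?_
  split_ifs with h
  · have e : u x = w x + (u - w) x := by
      have : (u - w) x = u x - w x := rfl
      rw [this]; ring
    conv_lhs => rw [e]
    exact esq_le _ _
  · exact bot_le

/-- the velocity has trivial kernel -/
theorem ker_vel (hc : c ≠ 0) {j : Fin d} {v : L2 (Site d) →L[ℂ] L2 (Site d)} (hv : IsVel c j v)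
    (z : L2 (Site d)) (hz : v z = 0) : z = 0 := by
  have h1 : ∀ x : Site d, z (x + Pi.single j 1) = z (x - Pi.single j 1) := by
    intro x
    have h2 := hv z x
    rw [hz] at h2
    have h3 : ((0 : L2 (Site d)) : Site d → ℂ) x = 0 := rfl
    rw [h3] at h2
    have h4 : (Complex.I * (c : ℂ)) ≠ 0 :=
      mul_ne_zero Complex.I_ne_zero (Complex.ofReal_ne_zero.2 hc)
    have h5 := (mul_eq_zero.1 h2.symm).resolve_left h4
    exact sub_eq_zero.1 h5
  have h6 : ∀ (n : ℕ) (x : Site d), z (x + ((2 * n : ℕ) : ℤ) • (Pi.single j 1 : Site d)) = z x := by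
    intro n
    induction n with
    | zero => intro x; simp
    | succ n ih =>
      intro x
      have h7 := h1 (x + ((2 * n + 1 : ℕ) : ℤ) • (Pi.single j 1 : Site d))
      have e1 : x + ((2 * n + 1 : ℕ) : ℤ) • (Pi.single j 1 : Site d) + Pi.single j 1 =
          x + ((2 * (n + 1) : ℕ) : ℤ) • (Pi.single j 1 : Site d) := by
        push_cast
        module
      have e2 : x + ((2 * n + 1 : ℕ) : ℤ) • (Pi.single j 1 : Site d) - Pi.single j 1 =
          x + ((2 * n : ℕ) : ℤ) • (Pi.single j 1 : Site d) := by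
        push_cast
        module
      rw [e1, e2] at h7
      rw [h7]
      exact ih x
  ext x
  have hinj : Function.Injective fun n : ℕ => x + ((2 * n : ℕ) : ℤ) • (Pi.single j 1 : Site d) := by
    intro m n hmn
    have h8 := congrFun hmn j
    simp only [Pi.add_apply, Pi.smul_apply, Pi.single_eq_same, smul_eq_mul, mul_one] at h8
    have h9 : ((2 * m : ℕ) : ℤ) = ((2 * n : ℕ) : ℤ) := by linarith
    have h10 : 2 * m = 2 * n := by exact_mod_cast h9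
    omega
  have hsum : Summable fun y => ‖z y‖ ^ 2 := (hasSum_sq z).summable
  have h11 : Tendsto (fun n : ℕ =>
      ‖z (x + ((2 * n : ℕ) : ℤ) • (Pi.single j 1 : Site d))‖ ^ 2) atTop (𝓝 0) := by
    have h12 := (hsum.comp_injective hinj).tendsto_atTop_zero
    exact h12
  simp only [h6] at h11
  have h13 : ‖z x‖ ^ 2 = 0 := tendsto_nhds_unique tendsto_const_nhds h11
  have h14 : ‖z x‖ = 0 := by
    have := pow_eq_zero_iff (two_ne_zero) |>.1 h13
    exact this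
  exact norm_eq_zero.1 h14

/-- states of the form `v ψ` with `ψ` in the span of the `δ_x` are dense -/
theorem vel_dense (hc : c ≠ 0) {j : Fin d} {v : L2 (Site d) →L[ℂ] L2 (Site d)}
    (hv : IsVel c j v) (w : L2 (Site d)) (δ : ℝ) (hδ : 0 < δ) :
    ∃ ψ ∈ Submodule.span ℂ (Set.range fun x : Site d => (dl x : L2 (Site d))),
      ‖w - v ψ‖ < δ := by
  set M := (Submodule.span ℂ (Set.range fun x : Site d => (dl x : L2 (Site d)))).map
    (v : L2 (Site d) →ₗ[ℂ] L2 (Site d)) with hM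
  have hsymm := STAT.vel_symm t_OPS c j v hv
  have h1 : Mᗮ = ⊥ := by
    rw [Submodule.eq_bot_iff]
    intro z hz
    refine ker_vel hc hv z ?_
    rw [Submodule.mem_orthogonal] at hz
    have h2 : ∀ x, (v z) x = 0 := by
      intro x
      have h3 := hz (v (dl x)) ⟨dl x, Submodule.subset_span ⟨x, rfl⟩, rfl⟩
      rw [hsymm] at h3
      rwa [STAT.inner_dl] at h3
    ext x
    exact h2 x
  have h4 : M.topologicalClosure = ⊤ := (Submodule.topologicalClosure_eq_top_iff).2 h1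
  have h5 : w ∈ closure (M : Set (L2 (Site d))) := by
    have h6 : w ∈ M.topologicalClosure := by
      rw [h4]
      trivial
    exact h6
  rw [Metric.mem_closure_iff] at h5
  obtain ⟨y, hy, hy2⟩ := h5 δ hδ
  obtain ⟨ψ, hψ, rfl⟩ := hy
  exact ⟨ψ, hψ, by rwa [dist_eq_norm] at hy2⟩

theorem pos_mem (j : Fin d) (ψ : L2 (Site d))
    (hψ : ψ ∈ Submodule.span ℂ (Set.range fun x : Site d => (dl x : L2 (Site d)))) :
    ∃ X : L2 (Site d), ∀ x, X x = (x j : ℂ) * ψ x := by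
  refine Submodule.span_induction (p := fun ψ _ => ∃ X : L2 (Site d), ∀ x, X x = (x j : ℂ) * ψ x)
    ?_ ?_ ?_ ?_ hψ
  · rintro _ ⟨z, rfl⟩
    refine ⟨(z j : ℂ) • dl z, fun x => ?_⟩
    show (z j : ℂ) * (dl z : L2 (Site d)) x = _
    by_cases h : x = z
    · rw [h]
    · have : (dl z : L2 (Site d)) x = 0 := by
        unfold dl
        rw [lp.coeFn_single]
        exact Pi.single_eq_of_ne h _
      rw [this, mul_zero, mul_zero]
  · exact ⟨0, fun x => by simp⟩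
  · rintro a b _ _ ⟨X, hX⟩ ⟨Y, hY⟩
    refine ⟨X + Y, fun x => ?_⟩
    show X x + Y x = (x j : ℂ) * (a x + b x)
    rw [hX, hY]
    ring
  · rintro r a _ ⟨X, hX⟩
    refine ⟨r • X, fun x => ?_⟩
    show r * X x = (x j : ℂ) * (r * a x)
    rw [hX]
    ring

/-- the free evolution leaves narrow cones -/
theorem free_cone (hd : 0 < d) (hc : c ≠ 0) {ev : (Site d → ℝ) → UG (L2 (Site d))}
    (hev : ∀ V, IsGrp c V (ev V)) (b : ℝ) (w : L2 (Site d)) (δ : ℝ≥0∞) (hδ : 0 < δ) :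
    ∃ ε : ℝ, 0 < ε ∧ ∀ᶠ t : ℝ in atTop, inn (ε * t) ((ev fun _ => b).U t w) ≤ δ := by
  let j : Fin d := ⟨0, hd⟩
  obtain ⟨v, hv⟩ := (t_OPS d).2.2 c j
  have hδ2 : 0 < δ / 2 := ENNReal.half_pos hδ.ne'
  have hδ4 : 0 < δ / 2 / 2 := ENNReal.half_pos hδ2.ne'
  obtain ⟨η, hη, hη2⟩ : ∃ η : ℝ, 0 < η ∧ 2 * ENNReal.ofReal (η ^ 2) ≤ δ / 2 := by
    have h1 : Tendsto (fun η : ℝ => 2 * ENNReal.ofReal (η ^ 2)) (𝓝[>] 0) (𝓝 0) := by
      have hc : Continuous fun η : ℝ => ENNReal.ofReal (η ^ 2) :=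
        ENNReal.continuous_ofReal.comp (continuous_pow 2)
      have h2 := (hc.tendsto 0).mono_left (nhdsWithin_le_nhds (s := Set.Ioi (0 : ℝ)))
      have h3 := ENNReal.Tendsto.const_mul (a := 2) h2 (Or.inr (by norm_num))
      simpa using h3
    obtain ⟨η, h3, h4⟩ := ((ENNReal.tendsto_nhds_zero.1 h1 (δ / 2) hδ2).and
      self_mem_nhdsWithin).exists
    exact ⟨η, h4, h3⟩
  obtain ⟨ψ, hψ, hw⟩ := vel_dense hc hv w η hη
  obtain ⟨X, hX⟩ := pos_mem j ψ hψ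
  obtain ⟨ε, hε, hε2⟩ : ∃ ε : ℝ, 0 < ε ∧
      2 * (ENNReal.ofReal (2 * ε ^ 2) * ‖ψ‖ₑ ^ 2) ≤ δ / 2 / 2 := by
    have h1 : Tendsto (fun ε : ℝ => 2 * (ENNReal.ofReal (2 * ε ^ 2) * ‖ψ‖ₑ ^ 2)) (𝓝[>] 0)
        (𝓝 0) := by
      have hc : Continuous fun η : ℝ => ENNReal.ofReal (2 * η ^ 2) :=
        ENNReal.continuous_ofReal.comp (by fun_prop)
      have h2 := (hc.tendsto 0).mono_left (nhdsWithin_le_nhds (s := Set.Ioi (0 : ℝ)))
      have h2' := ENNReal.Tendsto.mul_const (b := ‖ψ‖ₑ ^ 2) h2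
        (Or.inr (ENNReal.pow_ne_top enorm_ne_top))
      have h3 := ENNReal.Tendsto.const_mul (a := 2) h2' (Or.inr (by norm_num))
      simpa using h3
    obtain ⟨η, h3, h4⟩ := ((ENNReal.tendsto_nhds_zero.1 h1 (δ / 2 / 2) hδ4).and
      self_mem_nhdsWithin).exists
    exact ⟨η, h4, h3⟩
  refine ⟨ε, hε, ?_⟩
  have h5 : Tendsto (fun t : ℝ => 2 * (ENNReal.ofReal (2 * (t ^ 2)⁻¹) * ‖X‖ₑ ^ 2)) atTop
      (𝓝 0) := by
    have h6 : Tendsto (fun t : ℝ => 2 * (t ^ 2)⁻¹) atTop (𝓝 0) := by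
      have h7 : Tendsto (fun t : ℝ => (t ^ 2)⁻¹) atTop (𝓝 0) :=
        (tendsto_pow_atTop (by norm_num)).inv_tendsto_atTop
      simpa using h7.const_mul 2
    have h8 := (ENNReal.continuous_ofReal.tendsto 0).comp h6
    rw [ENNReal.ofReal_zero] at h8
    have h9 := ENNReal.Tendsto.mul_const (b := ‖X‖ₑ ^ 2) h8
      (Or.inr (ENNReal.pow_ne_top enorm_ne_top))
    have h10 := ENNReal.Tendsto.const_mul (a := 2) h9 (Or.inr (by norm_num))
    simpa using h10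
  filter_upwards [ENNReal.tendsto_nhds_zero.1 h5 (δ / 2 / 2) hδ4, eventually_gt_atTop (0 : ℝ)]
    with t ht ht0
  have h11 : ‖(ev fun _ => b).U t w - (ev fun _ => b).U t (v ψ)‖ₑ ^ 2 ≤
      ENNReal.ofReal (η ^ 2) := by
    rw [← map_sub, ← ofReal_norm, (ev fun _ => b).norm', ← ENNReal.ofReal_pow (norm_nonneg _)]
    exact ENNReal.ofReal_le_ofReal (pow_le_pow_left₀ (norm_nonneg _) hw.le 2)
  calc inn (ε * t) ((ev fun _ => b).U t w)
      ≤ 2 * inn (ε * t) ((ev fun _ => b).U t (v ψ)) +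
        2 * ‖(ev fun _ => b).U t w - (ev fun _ => b).U t (v ψ)‖ₑ ^ 2 := inn_add _ _ _
    _ ≤ 2 * (ENNReal.ofReal (2 * ε ^ 2) * ‖ψ‖ₑ ^ 2 +
        ENNReal.ofReal (2 * (t ^ 2)⁻¹) * ‖X‖ₑ ^ 2) + 2 * ENNReal.ofReal (η ^ 2) := by
        gcongr
        exact inn_vel hev b hv ψ X hX ε t ht0
    _ ≤ (δ / 2 / 2 + δ / 2 / 2) + δ / 2 := by
        rw [mul_add]
        exact add_le_add (add_le_add hε2 ht) hη2
    _ = δ := by
        rw [ENNReal.add_halves, ENNReal.add_halves]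

end Pool.Agent.U619.AO
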