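import Pool.Agent.U619.AO.Free

/-! # Anderson and free evolutions become orthogonal -/

set_option autoImplicit false
set_option linter.unusedSectionVars false

open MeasureTheory Filter Topology
open scoped BigOperators ENNReal NNReal InnerProductSpace ComplexConjugate

namespace Pool.Agent.U619.AO

open Pool.Agent.H5R2.NB Pool.Agent.H5R2.NB.MOM Pool.Agent.U619.NB

variable {d : ℕ} {c : ℝ}

/-- indicator of the ball of radius `R` -/
noncomputable def ind (R : ℝ) (x : Site d) : ℝ :=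
  if ∑ i : Fin d, (x i : ℝ) ^ 2 ≤ R ^ 2 then 1 else 0

theorem ind_abs (R : ℝ) (x : Site d) : |ind R x| ≤ 1 := by
  unfold ind
  split_ifs <;> simp

/-- restriction to the ball of radius `R` -/
noncomputable def P (R : ℝ) : L2 (Site d) →L[ℂ] L2 (Site d) := mulop (ind R) 1 (ind_abs R)

theorem P_apply (R : ℝ) (u : L2 (Site d)) (x : Site d) : (P R u) x = (ind R x : ℂ) * u x := rfl

theorem P_norm (R : ℝ) (u : L2 (Site d)) : ‖P R u‖ₑ ^ 2 = inn R u := by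
  rw [← enorm_sq]
  unfold inn
  refine tsum_congr fun x => ?_
  rw [P_apply]
  unfold ind
  split_ifs with h
  · simp
  · simp

theorem P_sub_norm (R : ℝ) (u : L2 (Site d)) : ‖u - P R u‖ₑ ^ 2 = out R u := by
  rw [← enorm_sq]
  unfold out
  refine tsum_congr fun x => ?_
  have h1 : (u - P R u) x = u x - (ind R x : ℂ) * u x := rfl
  rw [h1]
  unfold ind
  split_ifs with h h2 h2
  · exact absurd h2 (not_lt.2 h)
  · simp
  · simp
  · exact absurd (not_le.1 h) h2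

theorem P_symm (R : ℝ) (a b : L2 (Site d)) : ⟪a, P R b⟫_ℂ = ⟪P R a, b⟫_ℂ := by
  rw [lp.inner_eq_tsum, lp.inner_eq_tsum]
  refine tsum_congr fun x => ?_
  rw [P_apply, P_apply, ← smul_eq_mul, ← smul_eq_mul, inner_smul_left, inner_smul_right,
    Complex.conj_ofReal]

theorem inner_split (R : ℝ) (a b : L2 (Site d)) :
    ‖⟪a, b⟫_ℂ‖ ≤ ‖a‖ * ‖P R b‖ + ‖a - P R a‖ * ‖b‖ := by
  have h1 : ⟪a, b⟫_ℂ = ⟪a, P R b⟫_ℂ + ⟪a - P R a, b⟫_ℂ := by
    rw [inner_sub_left, P_symm]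
    ring
  rw [h1]
  exact (norm_add_le _ _).trans (add_le_add (norm_inner_le_norm _ _) (norm_inner_le_norm _ _))

theorem norm_of_esq (y : L2 (Site d)) (δ : ℝ) (hδ : 0 ≤ δ)
    (h : ‖y‖ₑ ^ 2 ≤ ENNReal.ofReal (δ ^ 2)) : ‖y‖ ≤ δ := by
  rw [← ofReal_norm, ← ENNReal.ofReal_pow (norm_nonneg _)] at h
  have h1 := (ENNReal.ofReal_le_ofReal_iff (by positivity)).1 h
  exact (pow_le_pow_iff_left₀ (norm_nonneg _) hδ two_ne_zero).1 h1

theorem tendsto_inner {A B : ℝ → L2 (Site d)} (CA CB : ℝ) (hA : ∀ t, ‖A t‖ ≤ CA)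
    (hB : ∀ t, ‖B t‖ ≤ CB)
    (hout : ∀ ε : ℝ, 0 < ε → Tendsto (fun t : ℝ => out (ε * t) (A t)) atTop (𝓝 0))
    (hinn : ∀ δ : ℝ≥0∞, 0 < δ → ∃ ε : ℝ, 0 < ε ∧ ∀ᶠ t : ℝ in atTop, inn (ε * t) (B t) ≤ δ) :
    Tendsto (fun t : ℝ => ⟪A t, B t⟫_ℂ) atTop (𝓝 0) := by
  have hCA : 0 ≤ CA := (norm_nonneg _).trans (hA 0)
  have hCB : 0 ≤ CB := (norm_nonneg _).trans (hB 0)
  rw [Metric.tendsto_nhds]
  intro η hη
  set δ := η / (2 * (CA + CB + 1)) with hδ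
  have hδ0 : 0 < δ := by positivity
  have hδe : 0 < ENNReal.ofReal (δ ^ 2) := ENNReal.ofReal_pos.2 (by positivity)
  obtain ⟨ε, hε, h1⟩ := hinn _ hδe
  filter_upwards [h1, ENNReal.tendsto_nhds_zero.1 (hout ε hε) _ hδe] with t h2 h3
  rw [dist_zero_right]
  have h4 : ‖P (ε * t) (B t)‖ ≤ δ := norm_of_esq _ δ hδ0.le (by rw [P_norm]; exact h2)
  have h5 : ‖A t - P (ε * t) (A t)‖ ≤ δ :=
    norm_of_esq _ δ hδ0.le (by rw [P_sub_norm]; exact h3)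
  calc ‖⟪A t, B t⟫_ℂ‖ ≤ ‖A t‖ * ‖P (ε * t) (B t)‖ + ‖A t - P (ε * t) (A t)‖ * ‖B t‖ :=
        inner_split _ _ _
    _ ≤ CA * δ + δ * CB := by
        refine add_le_add (mul_le_mul (hA t) h4 (norm_nonneg _) hCA)
          (mul_le_mul h5 (hB t) (norm_nonneg _) hδ0.le)
    _ = (CA + CB) * δ := by ring
    _ < η := by
        rw [hδ]
        have h6 : 0 < 2 * (CA + CB + 1) := by positivity
        rw [← mul_div_assoc, div_lt_iff₀ h6]
        nlinarith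

/-- almost surely the evolution in the random potential becomes orthogonal to every free
evolution -/
theorem orth (hd : 0 < d) {ev : (Site d → ℝ) → UG (L2 (Site d))}
    (hev : ∀ V, IsGrp c V (ev V)) {ν : Measure ℝ} [IsProbabilityMeasure ν]
    (hν : ∀ κ : ℝ, ν {κ} ≠ 1) :
    ∀ᵐ V ∂(PP d ν), ∀ (c' : ℝ), c' ≠ 0 → ∀ (ev' : (Site d → ℝ) → UG (L2 (Site d))),
      (∀ V, IsGrp c' V (ev' V)) → ∀ (b : ℝ) (u w : L2 (Site d)),
        Tendsto (fun t : ℝ => ⟪(ev V).U t u, (ev' fun _ => b).U t w⟫_ℂ) atTop (𝓝 0) := by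
  filter_upwards [Pool.Agent.U619.ZV.all_zero hev hν] with V hV
  intro c' hc' ev' hev' b u w
  exact tendsto_inner ‖u‖ ‖w‖ (fun t => ((ev V).norm' t u).le)
    (fun t => ((ev' fun _ => b).norm' t w).le) (hV u).2.2
    (fun δ hδ => free_cone hd hc' hev' b w δ hδ)

theorem dist_of_inner {A B : ℝ → L2 (Site d)} (a b : ℝ) (hA : ∀ t, ‖A t‖ = a)
    (hB : ∀ t, ‖B t‖ = b) (h : Tendsto (fun t : ℝ => ⟪A t, B t⟫_ℂ) atTop (𝓝 0)) :
    Tendsto (fun t : ℝ => ‖A t - B t‖ ^ 2) atTop (𝓝 (a ^ 2 + b ^ 2)) := by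
  have h1 : ∀ t, ‖A t - B t‖ ^ 2 = a ^ 2 - 2 * (⟪A t, B t⟫_ℂ).re + b ^ 2 := by
    intro t
    have h2 := @norm_sub_sq ℂ (L2 (Site d)) _ _ _ (A t) (B t)
    rw [h2, hA, hB]
    rfl
  simp only [h1]
  have h3 : Tendsto (fun t : ℝ => (⟪A t, B t⟫_ℂ).re) atTop (𝓝 0) := by
    have h5 := (Complex.continuous_re.tendsto 0).comp h
    rw [Complex.zero_re] at h5
    exact h5
  have h4 := ((tendsto_const_nhds (x := a ^ 2)).sub (h3.const_mul 2)).add_const (b ^ 2)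
  simpa using h4

end Pool.Agent.U619.AO
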